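import Mathlib
import Pool.Agent.X140.PMFEx

/-!
# The `(x,y)` edge-removal process ends at an `(x,y)` task-dependency graph w.h.p.
-/

namespace Pool.Agent.Results.MP_f59edb_pr.ProcessSucceeds

open Filter Topology Pool.Agent.X140.PMFEx
open scoped ENNReal

section general

variable {E : Type} [DecidableEq E]

/-- One step of a removal process: remove a uniformly random removable edge, or stay if there is
none. -/
noncomputable def step (rem : Finset E → Finset E) (S : Finset E) : PMF (Finset E) :=
  if h : (rem S).Nonempty then (PMF.uniformOfFinset (rem S) h).map (fun e => S.erase e)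
  else PMF.pure S

/-- The law of the state after `k` steps started from `S`. -/
noncomputable def run (rem : Finset E → Finset E) : ℕ → Finset E → PMF (Finset E)
  | 0, S => PMF.pure S
  | k + 1, S => (step rem S).bind (run rem k)

open Classical in
/-- Probability that a property fails after `k` steps. -/
noncomputable def fail (rem : Finset E → Finset E) (P : Finset E → Prop) (k : ℕ) (S : Finset E) :
    ℝ≥0∞ := Ex (run rem k S) (fun a => if P a then 0 else 1)

theorem fail_le_one (rem : Finset E → Finset E) (P : Finset E → Prop) (k : ℕ) (S : Finset E) :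
    fail rem P k S ≤ 1 := by
  classical
  unfold fail
  calc Ex (run rem k S) (fun a => if P a then 0 else 1) ≤ Ex (run rem k S) (fun _ => 1) :=
        Ex_mono _ fun a => by split_ifs <;> simp
    _ = 1 := Ex_const _ _

theorem fail_succ (rem : Finset E → Finset E) (P : Finset E → Prop) (k : ℕ) (S : Finset E)
    (h : (rem S).Nonempty) :
    fail rem P (k + 1) S = (∑ e ∈ rem S, fail rem P k (S.erase e)) / ((rem S).card : ℝ≥0∞) := by
  classical
  unfold fail
  simp only [run]
  rw [Ex_bind]
  unfold step
  rw [dif_pos h, Ex_map, Ex_uniformOfFinset]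

theorem fail_succ' (rem : Finset E → Finset E) (P : Finset E → Prop) (k : ℕ) (S : Finset E)
    (h : ¬ (rem S).Nonempty) : fail rem P (k + 1) S = fail rem P k S := by
  classical
  unfold fail
  simp only [run]
  rw [Ex_bind]
  unfold step
  rw [dif_neg h, Ex_pure]

theorem fail_zero_of (rem : Finset E → Finset E) (valid done : Finset E → Prop)
    (h0 : ∀ S, ∀ e ∈ rem S, valid S → valid (S.erase e))
    (h2 : ∀ S, ∀ e ∈ rem S, valid S → done S → done (S.erase e)) (k : ℕ) :
    ∀ S, valid S → done S → fail rem done k S = 0 := by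
  induction k with
  | zero => intro S _ hd; simp [fail, run, Ex_pure, hd]
  | succ k ih =>
    intro S hv hd
    by_cases h : (rem S).Nonempty
    · rw [fail_succ _ _ _ _ h]
      have : ∑ e ∈ rem S, fail rem done k (S.erase e) = 0 :=
        Finset.sum_eq_zero fun e he => ih _ (h0 S e he hv) (h2 S e he hv hd)
      rw [this]; simp
    · rw [fail_succ' _ _ _ _ h]
      exact ih S hv hd

variable {B : Type} [DecidableEq B]

/-- Degree at `b`. -/
def dg (head : E → B) (S : Finset E) (b : B) : ℕ := (S.filter fun e => head e = b).card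

/-- Number of special edges at `b`. -/
def sg (head : E → B) (sp : Finset E) (S : Finset E) (b : B) : ℕ :=
  (S.filter fun e => head e = b ∧ e ∈ sp).card

/-- The potential. -/
noncomputable def Phi [Fintype B] (head : E → B) (sp : Finset E) (S : Finset E) : ℝ :=
  ∑ b, (sg head sp S b : ℝ) / (dg head S b : ℝ)

theorem Phi_nonneg [Fintype B] (head : E → B) (sp : Finset E) (S : Finset E) : 0 ≤ Phi head sp S := by
  unfold Phi; positivity

theorem dg_erase_ne {head : E → B} {S : Finset E} {e : E} {b : B} (h : head e ≠ b) :
    dg head (S.erase e) b = dg head S b := by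
  unfold dg
  congr 1
  ext a
  simp only [Finset.mem_filter, Finset.mem_erase]
  constructor
  · rintro ⟨⟨_, h1⟩, h2⟩
    exact ⟨h1, h2⟩
  · rintro ⟨h1, h2⟩
    exact ⟨⟨fun hae => h (hae ▸ h2), h1⟩, h2⟩

theorem sg_erase_ne {head : E → B} {sp S : Finset E} {e : E} {b : B} (h : head e ≠ b) :
    sg head sp (S.erase e) b = sg head sp S b := by
  unfold sg
  congr 1
  ext a
  simp only [Finset.mem_filter, Finset.mem_erase]
  constructor
  · rintro ⟨⟨_, h1⟩, h2⟩
    exact ⟨h1, h2⟩
  · rintro ⟨h1, h2⟩
    exact ⟨⟨fun hae => h (hae ▸ h2.1), h1⟩, h2⟩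

theorem dg_erase {head : E → B} {S : Finset E} {e : E} (he : e ∈ S) :
    (dg head (S.erase e) (head e) : ℝ) = dg head S (head e) - 1 := by
  have h : (S.erase e).filter (fun a => head a = head e)
      = (S.filter fun a => head a = head e).erase e := by
    rw [Finset.filter_erase]
  have hm : e ∈ S.filter fun a => head a = head e := by simp [he]
  unfold dg
  rw [h, Finset.card_erase_of_mem hm, Nat.cast_sub (Finset.card_pos.mpr ⟨e, hm⟩)]
  simp

theorem sg_erase {head : E → B} {sp S : Finset E} {e : E} (he : e ∈ S) :
    (sg head sp (S.erase e) (head e) : ℝ) = sg head sp S (head e) - if e ∈ sp then 1 else 0 := by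
  have h : (S.erase e).filter (fun a => head a = head e ∧ a ∈ sp)
      = (S.filter fun a => head a = head e ∧ a ∈ sp).erase e := by
    rw [Finset.filter_erase]
  unfold sg
  rw [h]
  by_cases hs : e ∈ sp
  · have hm : e ∈ S.filter fun a => head a = head e ∧ a ∈ sp := by simp [he, hs]
    rw [Finset.card_erase_of_mem hm, Nat.cast_sub (Finset.card_pos.mpr ⟨e, hm⟩)]
    simp [hs]
  · have hm : e ∉ S.filter fun a => head a = head e ∧ a ∈ sp := by simp [hs]
    rw [Finset.erase_eq_of_notMem hm]
    simp [hs]

theorem avg_term {rem : Finset E → Finset E} (hrem : ∀ S, rem S ⊆ S) {head : E → B}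
    {sp S : Finset E} (b : B) (h1 : ∀ e ∈ S, 2 ≤ dg head S (head e) → e ∈ rem S)
    (hs : ∀ e ∈ S, e ∈ sp → 2 ≤ dg head S (head e)) :
    ∑ e ∈ rem S, (sg head sp (S.erase e) b : ℝ) / (dg head (S.erase e) b : ℝ) ≤
      (rem S).card * ((sg head sp S b : ℝ) / (dg head S b : ℝ)) := by
  rw [← Finset.sum_filter_add_sum_filter_not (rem S) (fun e => head e = b)]
  have hcard : ((rem S).card : ℝ) = ((rem S).filter fun e => head e = b).card +
      ((rem S).filter fun e => ¬ head e = b).card := by
    rw [← Nat.cast_add, Finset.card_filter_add_card_filter_not]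
  rw [hcard, add_mul]
  refine add_le_add ?_ ?_
  · by_cases hd : 2 ≤ dg head S b
    · have hD : (rem S).filter (fun e => head e = b) = S.filter (fun e => head e = b) := by
        ext e
        simp only [Finset.mem_filter]
        constructor
        · rintro ⟨h, h'⟩; exact ⟨hrem S h, h'⟩
        · rintro ⟨h, h'⟩; exact ⟨h1 e h (by rw [h']; exact hd), h'⟩
      rw [hD]
      have hval : ∀ e ∈ S.filter (fun e => head e = b),
          (sg head sp (S.erase e) b : ℝ) / (dg head (S.erase e) b : ℝ) =
          ((sg head sp S b : ℝ) - if e ∈ sp then 1 else 0) / ((dg head S b : ℝ) - 1) := by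
        intro e he
        obtain ⟨he1, he2⟩ := Finset.mem_filter.mp he
        subst he2
        rw [sg_erase he1, dg_erase he1]
      rw [Finset.sum_congr rfl hval, ← Finset.sum_div, Finset.sum_sub_distrib, Finset.sum_const,
        nsmul_eq_mul]
      have hsum : ∑ e ∈ S.filter (fun e => head e = b), (if e ∈ sp then (1 : ℝ) else 0)
          = sg head sp S b := by
        rw [Finset.sum_boole, Finset.filter_filter]
        rfl
      rw [hsum]
      have hdg : ((S.filter (fun e => head e = b)).card : ℝ) = dg head S b := rfl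
      rw [hdg]
      have hd' : (2 : ℝ) ≤ dg head S b := by exact_mod_cast hd
      have hne : (dg head S b : ℝ) - 1 ≠ 0 := by linarith
      have hne' : (dg head S b : ℝ) ≠ 0 := by linarith
      apply le_of_eq
      field_simp
    · have hs0 : ∀ e ∈ S, head e = b → e ∉ sp := by
        intro e he heb hsp
        have := hs e he hsp
        rw [heb] at this
        exact hd this
      have hsgz : ∀ T ⊆ S, sg head sp T b = 0 := by
        intro T hT
        unfold sg
        rw [Finset.card_eq_zero, Finset.filter_eq_empty_iff]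
        rintro e he ⟨h1, h2⟩
        exact hs0 e (hT he) h1 h2
      have : ∀ e ∈ (rem S).filter (fun e => head e = b),
          (sg head sp (S.erase e) b : ℝ) / (dg head (S.erase e) b : ℝ) = 0 := by
        intro e _
        rw [hsgz _ (Finset.erase_subset _ _)]
        simp
      rw [Finset.sum_eq_zero this, hsgz S (Finset.Subset.refl _)]
      simp
  · have : ∀ e ∈ (rem S).filter (fun e => ¬ head e = b),
        (sg head sp (S.erase e) b : ℝ) / (dg head (S.erase e) b : ℝ) =
        (sg head sp S b : ℝ) / (dg head S b : ℝ) := by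
      intro e he
      have hne := (Finset.mem_filter.mp he).2
      rw [sg_erase_ne hne, dg_erase_ne hne]
    rw [Finset.sum_congr rfl this, Finset.sum_const, nsmul_eq_mul]

/-- The potential bounds the probability of failure. -/
theorem fail_le [Fintype B] {rem : Finset E → Finset E} (hrem : ∀ S, rem S ⊆ S) (head : E → B)
    (sp : Finset E) (valid done : Finset E → Prop)
    (h0 : ∀ S, ∀ e ∈ rem S, valid S → valid (S.erase e))
    (h1 : ∀ S, valid S → ¬ done S → ∀ e ∈ S, 2 ≤ dg head S (head e) → e ∈ rem S)
    (h2 : ∀ S, ∀ e ∈ rem S, valid S → done S → done (S.erase e))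
    (h3 : ∀ S, valid S → (∀ e ∈ S, e ∉ sp) → done S) (k : ℕ) :
    ∀ S, S.card ≤ k → valid S → fail rem done k S ≤ ENNReal.ofReal (Phi head sp S) := by
  induction k with
  | zero =>
    intro S hS hv
    have hempty : S = ∅ := Finset.card_eq_zero.mp (Nat.le_zero.mp hS)
    have hd : done S := h3 S hv (by rw [hempty]; simp)
    rw [fail_zero_of rem valid done h0 h2 0 S hv hd]
    exact zero_le
  | succ k ih =>
    intro S hS hv
    by_cases hd : done S
    · rw [fail_zero_of rem valid done h0 h2 _ S hv hd]
      exact zero_le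
    by_cases hbad : ∀ e ∈ S, e ∈ sp → 2 ≤ dg head S (head e)
    · have hex : ∃ e ∈ S, e ∈ sp := by
        by_contra hcon
        push Not at hcon
        exact hd (h3 S hv hcon)
      obtain ⟨e₀, he₀, hsp₀⟩ := hex
      have hr₀ : e₀ ∈ rem S := h1 S hv hd e₀ he₀ (hbad e₀ he₀ hsp₀)
      have hne : (rem S).Nonempty := ⟨e₀, hr₀⟩
      have hcpos : (0 : ℝ) < (rem S).card := by exact_mod_cast Finset.card_pos.mpr hne
      rw [fail_succ _ _ _ _ hne]
      have hstep : ∑ e ∈ rem S, fail rem done k (S.erase e) ≤
          ENNReal.ofReal (∑ e ∈ rem S, Phi head sp (S.erase e)) := by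
        rw [ENNReal.ofReal_sum_of_nonneg fun e _ => Phi_nonneg head sp _]
        refine Finset.sum_le_sum fun e he => ih _ ?_ (h0 S e he hv)
        rw [Finset.card_erase_of_mem (hrem S he)]
        omega
      have havg : ∑ e ∈ rem S, Phi head sp (S.erase e) ≤ (rem S).card * Phi head sp S := by
        unfold Phi
        rw [Finset.sum_comm, Finset.mul_sum]
        exact Finset.sum_le_sum fun b _ => avg_term hrem b (h1 S hv hd) hbad
      calc (∑ e ∈ rem S, fail rem done k (S.erase e)) / ((rem S).card : ℝ≥0∞)
          ≤ ENNReal.ofReal ((rem S).card * Phi head sp S) / ((rem S).card : ℝ≥0∞) := by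
            gcongr
            exact hstep.trans (ENNReal.ofReal_le_ofReal havg)
        _ = ENNReal.ofReal (Phi head sp S) := by
            rw [ENNReal.ofReal_mul hcpos.le, ENNReal.ofReal_natCast, mul_comm,
              ENNReal.mul_div_cancel_right (by exact_mod_cast hcpos.ne') (by simp)]
    · push Not at hbad
      obtain ⟨e, he, hsp, hlt⟩ := hbad
      have hdg : dg head S (head e) = 1 := by
        have : 0 < dg head S (head e) := Finset.card_pos.mpr ⟨e, by simp [he]⟩
        omega
      have hsg : 1 ≤ sg head sp S (head e) := Finset.card_pos.mpr ⟨e, by simp [he, hsp]⟩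
      have hPhi : 1 ≤ Phi head sp S := by
        unfold Phi
        calc (1 : ℝ) ≤ (sg head sp S (head e) : ℝ) / (dg head S (head e) : ℝ) := by
              rw [hdg]
              have : (1 : ℝ) ≤ sg head sp S (head e) := by exact_mod_cast hsg
              simpa using this
          _ ≤ _ := Finset.single_le_sum (f := fun b => (sg head sp S b : ℝ) / (dg head S b : ℝ))
              (fun b _ => by positivity) (Finset.mem_univ (head e))
      calc fail rem done (k + 1) S ≤ 1 := fail_le_one _ _ _ _
        _ ≤ ENNReal.ofReal (Phi head sp S) := by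
            rw [← ENNReal.ofReal_one]
            exact ENNReal.ofReal_le_ofReal hPhi

/-- If every special edge has a head of degree at least `D` in `S`, the potential is at most
`|sp| / D`. -/
theorem Phi_le [Fintype B] (head : E → B) (sp S : Finset E) {D : ℝ} (hD : 0 < D)
    (h : ∀ e ∈ S, e ∈ sp → D ≤ dg head S (head e)) : Phi head sp S ≤ sp.card / D := by
  have h1 : ∀ b, (sg head sp S b : ℝ) / (dg head S b : ℝ) ≤ (sg head sp S b : ℝ) / D := by
    intro b
    by_cases h0 : sg head sp S b = 0
    · simp [h0]
    · obtain ⟨e, he⟩ := Finset.card_pos.mp (Nat.pos_of_ne_zero h0)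
      simp only [Finset.mem_filter] at he
      have := h e he.1 he.2.2
      rw [he.2.1] at this
      gcongr
  calc Phi head sp S ≤ ∑ b, (sg head sp S b : ℝ) / D := Finset.sum_le_sum fun b _ => h1 b
    _ = ((∑ b, sg head sp S b : ℕ) : ℝ) / D := by rw [← Finset.sum_div]; push_cast; rfl
    _ ≤ sp.card / D := by
        gcongr
        have h2 : ∑ b, sg head sp S b = (S.filter fun e => e ∈ sp).card := by
          rw [Finset.card_eq_sum_card_fiberwise (f := head) (t := Finset.univ)
            (fun e _ => Finset.mem_univ _)]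
          refine Finset.sum_congr rfl fun b _ => ?_
          unfold sg
          congr 1
          ext e
          simp only [Finset.mem_filter]
          tauto
        rw [h2]
        apply Finset.card_le_card
        intro e he
        exact (Finset.mem_filter.mp he).2

end general

/-! ### The edge-removal process -/

/-- Edge sets on the vertex set `{0, …, n-1}`. -/
abbrev Edges (n : ℕ) : Type := Finset (Fin n × Fin n)

/-- The complete task-dependency graph. -/
def complete (n : ℕ) : Edges n := Finset.univ.filter fun e => e.1 < e.2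

/-- Number of initial vertices (in-degree zero). -/
def nInit {n : ℕ} (S : Edges n) : ℕ :=
  (Finset.univ.filter fun v : Fin n => ∀ e ∈ S, e.2 ≠ v).card

/-- Number of terminal vertices (out-degree zero). -/
def nTerm {n : ℕ} (S : Edges n) : ℕ :=
  (Finset.univ.filter fun v : Fin n => ∀ e ∈ S, e.1 ≠ v).card

/-- The edges whose removal is not cancelled. -/
def removable (x y : ℕ) {n : ℕ} (S : Edges n) : Edges n :=
  S.filter fun e => nInit (S.erase e) ≤ x ∧ nTerm (S.erase e) ≤ y

/-- The probability that the `(x,y)` edge-removal process on `n` vertices stops at an `(x,y)`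
task-dependency graph.  (After `n * n` steps the process has stopped.) -/
noncomputable def r (x y n : ℕ) : ℝ≥0∞ :=
  (run (removable x y) (n * n) (complete n)).toOuterMeasure {S | nInit S = x ∧ nTerm S = y}

/-! ### Analysis -/

section analysis

variable {n : ℕ}

/-- Number of vertices that are not the `pr`-end of any edge. -/
def nz (pr : Fin n × Fin n → Fin n) (S : Edges n) : ℕ :=
  (Finset.univ.filter fun v : Fin n => ∀ e ∈ S, pr e ≠ v).card

theorem nz_mono (pr : Fin n × Fin n → Fin n) {S T : Edges n} (h : T ⊆ S) : nz pr S ≤ nz pr T := by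
  unfold nz
  apply Finset.card_le_card
  intro v hv
  simp only [Finset.mem_filter, Finset.mem_univ, true_and] at hv ⊢
  exact fun e he => hv e (h he)

theorem nz_erase_le (pr : Fin n × Fin n → Fin n) (S : Edges n) (e : Fin n × Fin n) :
    nz pr (S.erase e) ≤ nz pr S + 1 := by
  unfold nz
  calc (Finset.univ.filter fun v : Fin n => ∀ a ∈ S.erase e, pr a ≠ v).card
      ≤ (insert (pr e) (Finset.univ.filter fun v : Fin n => ∀ a ∈ S, pr a ≠ v)).card := by
        apply Finset.card_le_card
        intro v hv
        simp only [Finset.mem_filter, Finset.mem_univ, true_and, Finset.mem_insert,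
          Finset.mem_erase] at hv ⊢
        by_cases hve : v = pr e
        · exact Or.inl hve
        · right
          intro a ha
          by_cases hae : a = e
          · rw [hae]; exact fun h => hve h.symm
          · exact hv a ⟨hae, ha⟩
    _ ≤ _ := Finset.card_insert_le _ _

theorem nz_erase_eq (head : Fin n × Fin n → Fin n) (S : Edges n) {e : Fin n × Fin n}
    (h : 2 ≤ dg head S (head e)) : nz head (S.erase e) = nz head S := by
  apply le_antisymm _ (nz_mono head (Finset.erase_subset _ _))
  unfold nz
  apply Finset.card_le_card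
  intro v hv
  simp only [Finset.mem_filter, Finset.mem_univ, true_and] at hv ⊢
  intro a ha hav
  by_cases hae : a = e
  · subst hae
    obtain ⟨b, hb, hba⟩ := Finset.exists_mem_ne (s := S.filter fun b => head b = head a)
      (by unfold dg at h; omega) a
    simp only [Finset.mem_filter] at hb
    exact hv b (Finset.mem_erase.mpr ⟨hba, hb.1⟩) (hb.2.trans hav)
  · exact hv a (Finset.mem_erase.mpr ⟨hae, ha⟩) hav

/-- One-sided analysis: `pr` is the end whose free vertices are counted by `done`, `head` the other
end. -/
theorem one_side (pr head : Fin n × Fin n → Fin n) (x y : ℕ) (rem : Edges n → Edges n)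
    (hrem : ∀ S, rem S = S.filter fun e => nz head (S.erase e) ≤ x ∧ nz pr (S.erase e) ≤ y)
    (sp : Edges n) (hsp : ∀ S ⊆ complete n, (∀ e ∈ S, e ∉ sp) → y ≤ nz pr S)
    (h0 : nz head (complete n) ≤ x ∧ nz pr (complete n) ≤ y) {D : ℝ} (hD : 0 < D)
    (hdeg : ∀ e ∈ complete n, e ∈ sp → D ≤ dg head (complete n) (head e)) :
    fail rem (fun S => nz pr S = y) (n * n) (complete n) ≤ ENNReal.ofReal (sp.card / D) := by
  have hsub : ∀ S, rem S ⊆ S := fun S => by rw [hrem]; exact Finset.filter_subset _ _
  refine (fail_le hsub head sp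
    (fun S => S ⊆ complete n ∧ nz head S ≤ x ∧ nz pr S ≤ y) (fun S => nz pr S = y)
    ?_ ?_ ?_ ?_ (n * n) (complete n) ?_ ?_).trans ?_
  · rintro S e he ⟨h1, _, _⟩
    rw [hrem, Finset.mem_filter] at he
    exact ⟨(Finset.erase_subset _ _).trans h1, he.2.1, he.2.2⟩
  · rintro S ⟨_, h2, h3⟩ hd e he hdg
    rw [hrem, Finset.mem_filter]
    refine ⟨he, ?_, ?_⟩
    · rw [nz_erase_eq head S hdg]; exact h2
    · have := nz_erase_le pr S e
      have : nz pr S ≠ y := hd
      omega
  · rintro S e he ⟨_, _, _⟩ hd
    rw [hrem, Finset.mem_filter] at he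
    have h4 := nz_mono pr (Finset.erase_subset e S)
    have hd' : nz pr S = y := hd
    show nz pr (S.erase e) = y
    omega
  · rintro S ⟨h1, _, h3⟩ hns
    have := hsp S h1 hns
    show nz pr S = y
    omega
  · calc (complete n).card ≤ (Finset.univ : Finset (Fin n × Fin n)).card :=
          Finset.card_filter_le _ _
      _ = n * n := by simp
  · exact ⟨Finset.Subset.refl _, h0.1, h0.2⟩
  · exact ENNReal.ofReal_le_ofReal (Phi_le head sp _ hD hdeg)

theorem dg_snd (b : Fin n) : dg Prod.snd (complete n) b = b.val := by
  unfold dg complete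
  have h : ((Finset.univ.filter fun e : Fin n × Fin n => e.1 < e.2).filter fun e => e.2 = b)
      = (Finset.Iio b).image (fun a => (a, b)) := by
    ext ⟨u, v⟩
    simp only [Finset.mem_filter, Finset.mem_univ, true_and, Finset.mem_image, Finset.mem_Iio,
      Prod.mk.injEq]
    constructor
    · rintro ⟨h1, h2⟩
      subst h2
      exact ⟨u, h1, rfl, rfl⟩
    · rintro ⟨a, h1, h2, h3⟩
      subst h2; subst h3
      exact ⟨h1, rfl⟩
  rw [h, Finset.card_image_of_injective _ (fun a a' haa => (Prod.mk.inj haa).1), Fin.card_Iio]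

theorem dg_fst (a : Fin n) : dg Prod.fst (complete n) a = n - 1 - a.val := by
  unfold dg complete
  have h : ((Finset.univ.filter fun e : Fin n × Fin n => e.1 < e.2).filter fun e => e.1 = a)
      = (Finset.Ioi a).image (fun b => (a, b)) := by
    ext ⟨u, v⟩
    simp only [Finset.mem_filter, Finset.mem_univ, true_and, Finset.mem_image, Finset.mem_Ioi,
      Prod.mk.injEq]
    constructor
    · rintro ⟨h1, h2⟩
      subst h2
      exact ⟨v, h1, rfl, rfl⟩
    · rintro ⟨b, h1, h2, h3⟩
      subst h2; subst h3
      exact ⟨h1, rfl⟩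
  rw [h, Finset.card_image_of_injective _ (fun a a' haa => (Prod.mk.inj haa).2), Fin.card_Ioi]

/-- The last `y` vertices. -/
def lastV (n y : ℕ) : Finset (Fin n) := Finset.univ.filter fun v => n ≤ v.val + y

/-- The first `x` vertices. -/
def firstV (n x : ℕ) : Finset (Fin n) := Finset.univ.filter fun v => v.val < x

theorem card_firstV {x : ℕ} (h : x ≤ n) : (firstV n x).card = x := by
  have h1 : (firstV n x) = (Finset.univ : Finset (Fin x)).image (Fin.castLE h) := by
    ext v
    simp only [firstV, Finset.mem_filter, Finset.mem_univ, true_and, Finset.mem_image]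
    constructor
    · intro hv
      exact ⟨⟨v.val, hv⟩, by ext; simp⟩
    · rintro ⟨w, rfl⟩
      simp
  rw [h1, Finset.card_image_of_injective _ (Fin.castLE_injective h)]
  simp

theorem card_lastV {y : ℕ} (h : y ≤ n) : (lastV n y).card = y := by
  have h1 : (lastV n y) = (firstV n y).image Fin.rev := by
    ext v
    simp only [lastV, firstV, Finset.mem_filter, Finset.mem_univ, true_and, Finset.mem_image]
    constructor
    · intro hv
      refine ⟨Fin.rev v, ?_, Fin.rev_rev v⟩
      rw [Fin.val_rev]
      have := v.2
      omega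
    · rintro ⟨w, hw, rfl⟩
      rw [Fin.val_rev]
      have := w.2
      omega
  rw [h1, Finset.card_image_of_injective _ Fin.rev_injective, card_firstV h]

theorem complete_small (pr : Fin n × Fin n → Fin n) (v₀ : Fin n)
    (h : ∀ v, v ≠ v₀ → ∃ e ∈ complete n, pr e = v) : nz pr (complete n) ≤ 1 := by
  unfold nz
  have : (Finset.univ.filter fun v : Fin n => ∀ e ∈ complete n, pr e ≠ v) ⊆ {v₀} := by
    intro v hv
    simp only [Finset.mem_filter, Finset.mem_univ, true_and] at hv
    rw [Finset.mem_singleton]
    by_contra hne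
    obtain ⟨e, he, hpe⟩ := h v hne
    exact hv e he hpe
  calc _ ≤ ({v₀} : Finset (Fin n)).card := Finset.card_le_card this
    _ = 1 := Finset.card_singleton _

theorem nz_fst_complete (hn : 0 < n) : nz Prod.fst (complete n) ≤ 1 := by
  refine complete_small _ ⟨n - 1, by omega⟩ fun v hv => ?_
  refine ⟨(v, ⟨n - 1, by omega⟩), ?_, rfl⟩
  simp only [complete, Finset.mem_filter, Finset.mem_univ, true_and]
  have : v.val ≠ n - 1 := fun h => hv (Fin.ext h)
  have := v.2
  rw [Fin.lt_def]
  simp only
  omega

theorem nz_snd_complete (hn : 0 < n) : nz Prod.snd (complete n) ≤ 1 := by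
  refine complete_small _ ⟨0, hn⟩ fun v hv => ?_
  refine ⟨(⟨0, hn⟩, v), ?_, rfl⟩
  simp only [complete, Finset.mem_filter, Finset.mem_univ, true_and]
  have : v.val ≠ 0 := fun h => hv (Fin.ext h)
  rw [Fin.lt_def]
  simp only
  omega

theorem fail_term {x y : ℕ} (hx : 1 ≤ x) (hy : 1 ≤ y) (hn : y < n) :
    fail (removable x y) (fun S : Edges n => nz Prod.fst S = y) (n * n) (complete n) ≤
      ENNReal.ofReal ((y : ℝ) ^ 2 / ((n : ℝ) - y)) := by
  have hD : (0 : ℝ) < (n : ℝ) - y := by
    have : (y : ℝ) < n := by exact_mod_cast hn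
    linarith
  have hn0 : 0 < n := by omega
  refine (one_side Prod.fst Prod.snd x y (removable x y) (fun S => rfl)
    ((lastV n y ×ˢ lastV n y)) ?_
    ⟨(nz_snd_complete hn0).trans hx, (nz_fst_complete hn0).trans hy⟩ hD ?_).trans ?_
  · intro S hS hns
    rw [← card_lastV hn.le]
    unfold nz
    apply Finset.card_le_card
    intro v hv
    simp only [Finset.mem_filter, Finset.mem_univ, true_and]
    intro e he hev
    apply hns e he
    have hlt : e.1 < e.2 := (Finset.mem_filter.mp (hS he)).2
    simp only [lastV, Finset.mem_filter, Finset.mem_univ, true_and] at hv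
    simp only [lastV, Finset.mem_product, Finset.mem_filter, Finset.mem_univ, true_and]
    rw [Fin.lt_def] at hlt
    have h1 : e.1.val = v.val := by rw [hev]
    constructor <;> omega
  · intro e he hsp
    rw [dg_snd]
    simp only [lastV, Finset.mem_product, Finset.mem_filter, Finset.mem_univ, true_and] at hsp
    have : (n : ℝ) ≤ e.2.val + y := by exact_mod_cast hsp.2
    linarith
  · apply ENNReal.ofReal_le_ofReal
    rw [Finset.card_product, card_lastV hn.le]
    push_cast
    rw [sq]

theorem fail_init {x y : ℕ} (hx : 1 ≤ x) (hy : 1 ≤ y) (hn : x < n) :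
    fail (removable x y) (fun S : Edges n => nz Prod.snd S = x) (n * n) (complete n) ≤
      ENNReal.ofReal ((x : ℝ) ^ 2 / ((n : ℝ) - x)) := by
  have hD : (0 : ℝ) < (n : ℝ) - x := by
    have : (x : ℝ) < n := by exact_mod_cast hn
    linarith
  have hn0 : 0 < n := by omega
  refine (one_side Prod.snd Prod.fst y x (removable x y) (fun S => ?_)
    ((firstV n x ×ˢ firstV n x)) ?_
    ⟨(nz_fst_complete hn0).trans hy, (nz_snd_complete hn0).trans hx⟩ hD ?_).trans ?_
  · ext e
    unfold removable
    simp only [Finset.mem_filter]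
    constructor
    · rintro ⟨h1, h2, h3⟩; exact ⟨h1, h3, h2⟩
    · rintro ⟨h1, h2, h3⟩; exact ⟨h1, h3, h2⟩
  · intro S hS hns
    rw [← card_firstV hn.le]
    unfold nz
    apply Finset.card_le_card
    intro v hv
    simp only [Finset.mem_filter, Finset.mem_univ, true_and]
    intro e he hev
    apply hns e he
    have hlt : e.1 < e.2 := (Finset.mem_filter.mp (hS he)).2
    simp only [firstV, Finset.mem_filter, Finset.mem_univ, true_and] at hv
    simp only [firstV, Finset.mem_product, Finset.mem_filter, Finset.mem_univ, true_and]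
    rw [Fin.lt_def] at hlt
    have h1 : e.2.val = v.val := by rw [hev]
    constructor <;> omega
  · intro e he hsp
    rw [dg_fst]
    simp only [firstV, Finset.mem_product, Finset.mem_filter, Finset.mem_univ, true_and] at hsp
    have hlt : e.1 < e.2 := (Finset.mem_filter.mp he).2
    rw [Fin.lt_def] at hlt
    have h1 : n ≤ (n - 1 - e.1.val) + x := by omega
    have : (n : ℝ) ≤ ((n - 1 - e.1.val : ℕ) : ℝ) + x := by exact_mod_cast h1
    linarith
  · apply ENNReal.ofReal_le_ofReal
    rw [Finset.card_product, card_firstV hn.le]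
    push_cast
    rw [sq]

theorem r_lower {x y : ℕ} (hx : 1 ≤ x) (hy : 1 ≤ y) (hnx : x < n) (hny : y < n) :
    1 ≤ r x y n + (ENNReal.ofReal ((y : ℝ) ^ 2 / ((n : ℝ) - y)) +
      ENNReal.ofReal ((x : ℝ) ^ 2 / ((n : ℝ) - x))) := by
  classical
  have h1 := fail_term (n := n) hx hy hny
  have h2 := fail_init (n := n) hx hy hnx
  calc (1 : ℝ≥0∞) = Ex (run (removable x y) (n * n) (complete n)) (fun _ => 1) :=
        (Ex_const _ _).symm
    _ ≤ Ex (run (removable x y) (n * n) (complete n)) (fun S =>
          (if S ∈ {S : Edges n | nInit S = x ∧ nTerm S = y} then 1 else 0) +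
          ((if nz Prod.fst S = y then 0 else 1) + (if nz Prod.snd S = x then 0 else 1))) := by
        apply Ex_mono
        intro S
        by_cases ha : nz Prod.fst S = y
        · by_cases hb : nz Prod.snd S = x
          · have hmem : S ∈ {S : Edges n | nInit S = x ∧ nTerm S = y} := ⟨hb, ha⟩
            rw [if_pos hmem]
            exact le_self_add
          · rw [if_neg hb]
            exact le_add_self.trans le_add_self
        · rw [if_neg ha]
          exact le_self_add.trans le_add_self
    _ = r x y n + (fail (removable x y) (fun S : Edges n => nz Prod.fst S = y) (n * n)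
          (complete n) + fail (removable x y) (fun S : Edges n => nz Prod.snd S = x) (n * n)
          (complete n)) := by
        rw [Ex_add, Ex_add]
        unfold r fail
        rw [toOuterMeasure_eq_Ex]
        congr!
    _ ≤ _ := by gcongr

theorem r_le_one (x y n : ℕ) : r x y n ≤ 1 := by
  classical
  unfold r
  rw [toOuterMeasure_eq_Ex]
  calc _ ≤ Ex (run (removable x y) (n * n) (complete n)) (fun _ => 1) :=
        Ex_mono _ fun a => by split_ifs <;> simp
    _ = 1 := Ex_const _ _

end analysis

/-- **For all fixed `x, y ≥ 1`, `r_{x,y,n} → 1`.** -/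
theorem result (x y : ℕ) (hx : 1 ≤ x) (hy : 1 ≤ y) :
    Tendsto (fun n : ℕ => r x y n) atTop (𝓝 1) := by
  have hreal : ∀ z : ℕ, Tendsto (fun n : ℕ => (z : ℝ) ^ 2 / ((n : ℝ) - z)) atTop (𝓝 0) := by
    intro z
    refine Tendsto.div_atTop tendsto_const_nhds ?_
    exact tendsto_atTop_add_const_right _ _ tendsto_natCast_atTop_atTop
  have hE : Tendsto (fun n : ℕ => ENNReal.ofReal ((y : ℝ) ^ 2 / ((n : ℝ) - y)) +
      ENNReal.ofReal ((x : ℝ) ^ 2 / ((n : ℝ) - x))) atTop (𝓝 0) := by
    have h1 := ENNReal.tendsto_ofReal (hreal y)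
    have h2 := ENNReal.tendsto_ofReal (hreal x)
    have := h1.add h2
    simpa using this
  have hlow : Tendsto (fun n : ℕ => 1 - (ENNReal.ofReal ((y : ℝ) ^ 2 / ((n : ℝ) - y)) +
      ENNReal.ofReal ((x : ℝ) ^ 2 / ((n : ℝ) - x)))) atTop (𝓝 1) := by
    have := ENNReal.Tendsto.sub (tendsto_const_nhds (x := (1 : ℝ≥0∞)) (f := atTop)) hE
      (Or.inl ENNReal.one_ne_top)
    simpa using this
  refine tendsto_of_tendsto_of_tendsto_of_le_of_le' hlow tendsto_const_nhds ?_
    (Eventually.of_forall fun n => r_le_one x y n)
  filter_upwards [eventually_gt_atTop x, eventually_gt_atTop y] with n hnx hny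
  rw [tsub_le_iff_right]
  exact r_lower hx hy hnx hny

end Pool.Agent.Results.MP_f59edb_pr.ProcessSucceeds
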